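import Pool.Agent.TH800.LD.Asm3

/-!
Large deviations for sums of `m` consecutive unfolded gaps of the zeta zeros, on the Riemann
hypothesis, uniformly in the number `N` of gaps and in `m`.

Idea of the proof.  For a window of `y` mean spacings, `y ≤ c log T`, the number of zeros in it is
compared from both sides with the explicit formula for Fejér type kernels of band width
`log T / (ρ y)` (`ρ` small); on RH this gives `|count - y| ≤ y (ε + P(t))` for every `t`, where
`P(t)` is the size of a Dirichlet polynomial over prime powers of length `T^{3 / (8 k)}`,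
`k ≍ ρ y`, and the contribution of the distant zeros is bounded by the same argument.  The moment of
order `2 k` of `P` is at most `T (C / k) ^ k`, because of the factor `y` that the kernels lose
against the weights, so that the exceptional set has measure `T exp (-c y log y)`.  A bad
`m`-sum of gaps forces a bad window for all `t` in an interval of one mean spacing, apart from
clusters of `≥ η m` zeros in one mean spacing, which are counted by the same moments; for
`m ≥ c log T / 2` there are no exceptions, and longer sums are split.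
-/

namespace Pool.Agent.Results.MP_7eacff_nt.GapSumsLargeDeviations

/-- multiplicity of `s` as a zero of the Riemann zeta function (order of vanishing at `s`) -/
noncomputable def zmult (s : ℂ) : ℕ := analyticOrderNatAt riemannZeta s

/-- the number of nontrivial zeros of `ζ` with ordinate in `(0, t]`, with multiplicity -/
noncomputable def NZ (t : ℝ) : ℕ :=
  ∑ᶠ s ∈ {s : ℂ | riemannZeta s = 0 ∧ 0 < s.re ∧ s.re < 1 ∧ 0 < s.im ∧ s.im ≤ t}, zmult s

/-- for `n ≥ 1`: the `n`-th positive ordinate `γ n` of a nontrivial zero of `ζ`, the ordinates being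
listed in nondecreasing order and repeated according to multiplicity -/
noncomputable def γ (n : ℕ) : ℝ := sInf {t : ℝ | n ≤ NZ t}

/-- the unfolded consecutive gaps `δ_n = (γ_{n+1} - γ_n) / 2π · log (γ_n / 2π)` -/
noncomputable def δ (n : ℕ) : ℝ := (γ (n + 1) - γ n) / (2 * Real.pi) * Real.log (γ n / (2 * Real.pi))

/-- On the Riemann hypothesis, for every `ε > 0` there are `c > 0` and `m0` such that for all
`N ≥ 1` and `m ≥ m0` at most `N exp (-c m log m)` of the indices `1 ≤ n ≤ N` satisfy
`|δ_n + δ_{n+1} + … + δ_{n+m-1} - m| ≥ ε m`. -/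
theorem result (RH : RiemannHypothesis) (ε : ℝ) (hε : 0 < ε) :
    ∃ c : ℝ, 0 < c ∧ ∃ m0 : ℕ, 1 ≤ m0 ∧ ∀ N : ℕ, 1 ≤ N → ∀ m : ℕ, m0 ≤ m →
      ({n : ℕ | 1 ≤ n ∧ n ≤ N ∧ ε * m ≤ |∑ i ∈ Finset.range m, δ (n + i) - m|}.ncard : ℝ) ≤
        N * Real.exp (-c * (m * Real.log m)) := by
  have hRHs : SP.RHs := by
    intro s h1 h2 h0
    apply RH s h0
    · rintro ⟨k, hk⟩
      have := congrArg Complex.re hk
      simp at this
      have hk0 : (0 : ℝ) ≤ k := Nat.cast_nonneg k
      linarith
    · intro h; rw [h] at h2; simp at h2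
  obtain ⟨c, hc, m0, hm0, H⟩ := Pool.Agent.TH800.LD.main hRHs (min ε 1) (lt_min hε one_pos)
    (min_le_right _ _)
  refine ⟨c, hc, m0, hm0, fun N hN m hm => le_trans ?_ (H N hN m hm)⟩
  have hsub : {n : ℕ | 1 ≤ n ∧ n ≤ N ∧ ε * m ≤ |∑ i ∈ Finset.range m, δ (n + i) - m|} ⊆
      {n : ℕ | 1 ≤ n ∧ n ≤ N ∧
        min ε 1 * m ≤ |∑ i ∈ Finset.range m, LG.CU.del (n + i) - m|} := by
    rintro n ⟨h1, h2, h3⟩
    refine ⟨h1, h2, le_trans ?_ h3⟩
    exact mul_le_mul_of_nonneg_right (min_le_left _ _) (Nat.cast_nonneg _)
  exact_mod_cast Set.ncard_le_ncard hsub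
    ((Set.finite_Iic N).subset (fun n hn => hn.2.1))

end Pool.Agent.Results.MP_7eacff_nt.GapSumsLargeDeviations
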