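import Pool.Agent.TH850.CL.Final

set_option autoImplicit false

/-! # The zeros of zeta at mesoscopic scales: the log-correlated Gaussian field, unconditionally -/

namespace Pool.Agent.Results.MP_7eacff_nt.MesoscopicGaussianField

open Complex MeasureTheory Set Filter Topology
open scoped ComplexConjugate FourierTransform BoundedContinuousFunction

/-- the nontrivial zeros of zeta -/
def zeros : Set ℂ := {s : ℂ | riemannZeta s = 0 ∧ 0 < s.re ∧ s.re < 1}

/-- the centred linear statistic of the ordinates of the zeros (with multiplicity, on or off the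
critical line) around `t`, at the scale of `a` mean spacings `2 π / log T` -/
noncomputable def stat (f : ℝ → ℝ) (T a t : ℝ) : ℝ :=
  (∑ᶠ s ∈ zeros, (analyticOrderNatAt riemannZeta s : ℝ) *
    f ((s.im - t) * Real.log T / (2 * Real.pi * a))) - a * ∫ x, f x

/-- the covariance `∫ |ξ| (𝓕 f)(ξ) conj (𝓕 g)(ξ) dξ` -/
noncomputable def cov (f g : ℝ → ℝ) : ℝ :=
  (∫ ξ : ℝ, ((|ξ| : ℝ) : ℂ) * (𝓕 (fun x => (f x : ℂ)) ξ * conj (𝓕 (fun x => (g x : ℂ)) ξ))).re

/-- the covariance matrix -/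
noncomputable def covMatrix {k : ℕ} (f : Fin k → ℝ → ℝ) : Matrix (Fin k) (Fin k) ℝ :=
  Matrix.of fun i j => cov (f i) (f j)

theorem result (k : ℕ) (f : Fin k → ℝ → ℝ) (hf : ∀ i, ContDiff ℝ 2 (f i))
    (hc : ∀ i, HasCompactSupport (f i)) (a : ℝ → ℝ) (ha : Tendsto a atTop atTop)
    (ha' : Tendsto (fun T => a T / Real.log T) atTop (𝓝 0)) :
    (covMatrix f).PosSemidef ∧ ∀ φ : EuclideanSpace ℝ (Fin k) →ᵇ ℝ,
      Tendsto (fun T : ℝ => 1 / T * ∫ t in T..(2 * T),
        φ (WithLp.toLp 2 fun i => stat (f i) T (a T) t)) atTop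
        (𝓝 (∫ x, φ x ∂(ProbabilityTheory.multivariateGaussian 0 (covMatrix f)))) :=
  ⟨Pool.Agent.TH850.CL.FINAux.posSemidef hf hc,
    Pool.Agent.TH850.CL.fin_all k f hf hc a ha ha'⟩

end Pool.Agent.Results.MP_7eacff_nt.MesoscopicGaussianField
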