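import Pool.Agent.W202.AH.Final

/-!
# Square root fluctuations of the exponentials of the zeta zeros at every frequency below `3/2`,
and patterns which the gaps avoid

Assume the Riemann hypothesis.  Let `y_n` be the unfolded ordinates of the zeta zeros (mean spacing
one) and `0 < θ < 3/2`.  For a positive proportion of the `n` the exponential sums
`∑ e(θ y_j)` over blocks of at most `L` consecutive zeros near the `n`-th one are not all within
`κ √L` of multiples `l c` of their lengths `l`, whatever the number `c` is.  Here `κ > 0` depends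
only on `θ`, and `L` is arbitrarily large; `√L` is the order of magnitude that the GUE hypothesis
predicts.  As a consequence the blocks of consecutive gaps avoid, modulo `s = 1/θ > 2/3`, EVERY
sequence `a` whose exponential sums `∑ e(θ (a_0 + … + a_{j-1}))` have such a small local
discrepancy: for a positive proportion of the `n`, no such sequence `a` is close to the gaps
`δ_n, δ_{n+1}, …` modulo `s` for a bounded number `B'` of steps.

The starting result `SumsAvoidCosets` is the special case of the sequences for which the sum of `r`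
consecutive terms is constant modulo `s`.  The theorems `mn` and `main` (AHP-7) used here are from
the starting files `Pool.Agent.W202.AH` and `Pool.Agent.W61.AHP7` (team of helper202: helpers 202,
177, 762, 349, 327, 61, 214) and had not been handed in.
-/

set_option autoImplicit false

open Filter

namespace Pool.Agent.Results.MP_7eacff_nt.SquareRootFluctuations

/-- multiplicity of `s` as a zero of the Riemann zeta function (order of vanishing at `s`) -/
noncomputable def zmult (s : ℂ) : ℕ := analyticOrderNatAt riemannZeta s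

/-- the number of nontrivial zeros of `ζ` with ordinate in `(0, t]`, with multiplicity -/
noncomputable def NZ (t : ℝ) : ℕ :=
  ∑ᶠ s ∈ {s : ℂ | riemannZeta s = 0 ∧ 0 < s.re ∧ s.re < 1 ∧ 0 < s.im ∧ s.im ≤ t}, zmult s

/-- for `n ≥ 1`: the `n`-th positive ordinate `γ n` of a nontrivial zero of `ζ`, the ordinates being
listed in nondecreasing order and repeated according to multiplicity -/
noncomputable def γ (n : ℕ) : ℝ := sInf {t : ℝ | n ≤ NZ t}

/-- the unfolded gaps `δ_n = (γ_{n+1} - γ_n) / 2π * log (γ_n / 2π)` -/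
noncomputable def δ (n : ℕ) : ℝ :=
  (γ (n + 1) - γ n) / (2 * Real.pi) * Real.log (γ n / (2 * Real.pi))

/-- the unfolded ordinates `y_n = δ_0 + … + δ_{n-1}`, so that `y_{n+1} - y_n = δ_n` -/
noncomputable def y (n : ℕ) : ℝ := ∑ i ∈ Finset.range n, δ i

/-- `e(x) = exp (2 π i x)` -/
noncomputable def e (x : ℝ) : ℂ := Complex.exp (((2 * Real.pi * x : ℝ) : ℂ) * Complex.I)

/-- On the Riemann hypothesis, for every `0 < θ < 3/2` there is `κ > 0` such that for all large `L`
there are `B` and `ε > 0` with the following property.  For all large `N`, at least `ε N` of the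
indices `1 ≤ n ≤ N` are such that:

(1) for every complex number `c` there are `l ≤ L` and `m ≤ B` for which the sum of the `l` numbers
`e(θ y_j)`, `n + m ≤ j < n + m + l`, differs from `l c` by more than `κ √L`;

(2) let `a_0, a_1, …` be any real numbers for which there is a complex number `c` such that, for all
`l ≤ L` and `m` with `m + l ≤ B + L`, the sum of the `l` numbers `e(θ (a_0 + … + a_{j-1}))`,
`m ≤ j < m + l`, is within `κ/2 √L` of `l c`; then one of the gaps `δ_{n+i}`, `i < B + L`, has
distance at least `ε` from all the numbers `a_i + k/θ`, `k` an integer. -/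
theorem result (RH : RiemannHypothesis) (θ : ℝ) (hθ : 0 < θ) (hθ2 : θ < 3 / 2) :
    ∃ κ : ℝ, 0 < κ ∧ ∃ L₀ : ℕ, ∀ L : ℕ, L₀ ≤ L → ∃ B : ℕ, ∃ ε : ℝ, 0 < ε ∧ ∀ᶠ N : ℕ in atTop,
      ε * N ≤ ({n : ℕ | 1 ≤ n ∧ n ≤ N ∧
        (∀ c : ℂ, ∃ m l : ℕ, m ≤ B ∧ l ≤ L ∧
          κ * Real.sqrt L < ‖∑ i ∈ Finset.range l, e (θ * y (n + m + i)) - l * c‖) ∧
        (∀ a : ℕ → ℝ,
          (∃ c : ℂ, ∀ m l : ℕ, m + l ≤ B + L → l ≤ L →
            ‖∑ i ∈ Finset.range l, e (θ * ∑ j ∈ Finset.range (m + i), a j) - l * c‖ ≤
              κ / 2 * Real.sqrt L) →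
          ∃ i : ℕ, i < B + L ∧ ∀ k : ℤ, ε ≤ |δ (n + i) - a i - k / θ|)}.ncard : ℝ) := by
  obtain ⟨κ, hκ, L0, h⟩ := W202.AH.mn RH θ hθ hθ2 _ Pool.Agent.W177.AHP6.main.2
  refine ⟨κ, hκ, max L0 1, ?_⟩
  intro L hL
  obtain ⟨B, ε0, hε0, hN⟩ := h L (le_trans (le_max_left _ _) hL)
  have hL1 : 1 ≤ L := le_trans (le_max_right _ _) hL
  have hpi := Real.pi_pos
  have hε1pos : 0 < κ / 2 / (2 * Real.pi * θ * (B + L : ℕ) * L + 1) := by positivity
  refine ⟨B, min ε0 (κ / 2 / (2 * Real.pi * θ * (B + L : ℕ) * L + 1)),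
    lt_min hε0 hε1pos, ?_⟩
  filter_upwards [hN] with N hN
  refine (mul_le_mul_of_nonneg_right (min_le_left _ _) (Nat.cast_nonneg N)).trans
    (hN.trans ?_)
  refine Nat.cast_le.mpr (Set.ncard_le_ncard ?_ ?_)
  · rintro n ⟨h1, h2, h3⟩
    refine ⟨h1, h2, ?_, ?_⟩
    · intro c
      unfold W202.AH.Good at h3
      push Not at h3
      obtain ⟨m, l, hm, hl, hml⟩ := h3 c
      exact ⟨m, l, hm, hl, hml⟩
    · intro a ha
      obtain ⟨i, hi, hk⟩ := Pool.Agent.W61.AHP7.core θ hθ
        (fun j => ∑ i ∈ Finset.range j, H177.Lat.del2 i) κ hκ L B hL1 _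
        (lt_min hε0 hε1pos) (min_le_right _ _) n h3 a ha
      refine ⟨i, hi, fun k => ?_⟩
      have h5 := hk k
      have e1 : ∑ i ∈ Finset.range (n + i + 1), H177.Lat.del2 i -
          ∑ i ∈ Finset.range (n + i), H177.Lat.del2 i = δ (n + i) := by
        rw [Finset.sum_range_succ, add_sub_cancel_left]
        rfl
      simp only [e1] at h5
      exact h5
  · refine Set.Finite.subset (Set.finite_Icc 1 N) ?_
    rintro n ⟨h1, h2, _⟩
    exact ⟨h1, h2⟩

end Pool.Agent.Results.MP_7eacff_nt.SquareRootFluctuations
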