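import Pool.Agent.TH861.RGP.Fin
import Pool.Agent.H382P.PosProp

open Filter

namespace Pool.Agent.Results.MP_7eacff_nt.UniformRSums

/-- multiplicity of `s` as a zero of the Riemann zeta function (order of vanishing at `s`) -/
noncomputable def zmult (s : ℂ) : ℕ := analyticOrderNatAt riemannZeta s

/-- the number of nontrivial zeros of `ζ` with ordinate in `(0, t]`, with multiplicity -/
noncomputable def NZ (t : ℝ) : ℕ :=
  ∑ᶠ s ∈ {s : ℂ | riemannZeta s = 0 ∧ 0 < s.re ∧ s.re < 1 ∧ 0 < s.im ∧ s.im ≤ t}, zmult s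

/-- for `n ≥ 1`: the `n`-th positive ordinate `γ n` of a nontrivial zero of `ζ`, the ordinates being
listed in nondecreasing order and repeated according to multiplicity -/
noncomputable def γ (n : ℕ) : ℝ := sInf {t : ℝ | n ≤ NZ t}

/-- the unfolded consecutive gaps `δ_n = (γ_{n+1} - γ_n) / 2π · log (γ_n / 2π)` -/
noncomputable def δ (n : ℕ) : ℝ := (γ (n + 1) - γ n) / (2 * Real.pi) * Real.log (γ n / (2 * Real.pi))

/-- the property `P` holds for a positive proportion of the positive integers `n` -/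
def PosProp (P : ℕ → Prop) : Prop :=
  ∃ p : ℝ, 0 < p ∧ ∀ᶠ N : ℕ in atTop, p ≤ (1 / N : ℝ) * ({n : ℕ | 1 ≤ n ∧ n ≤ N ∧ P n}.ncard : ℝ)

theorem RHs_of (RH : RiemannHypothesis) : SP.RHs := by
  intro s h1 h2 h0
  apply RH s h0
  · rintro ⟨k, hk⟩
    have := congrArg Complex.re hk
    simp at this
    have hk0 : (0 : ℝ) ≤ k := Nat.cast_nonneg k
    linarith
  · intro h; rw [h] at h2; simp at h2

theorem posprop_of {P Q : ℕ → Prop} {ε : ℝ} (hε : 0 < ε)
    (h : ∀ᶠ N : ℕ in atTop, ε * N ≤ (({n : ℕ | 1 ≤ n ∧ n ≤ N ∧ P n}.ncard : ℕ) : ℝ))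
    (hPQ : ∀ n : ℕ, 1 ≤ n → P n → Q n) : PosProp Q := by
  refine ⟨ε, hε, ?_⟩
  filter_upwards [h, eventually_gt_atTop 0] with N hN hN0
  have hNpos : (0 : ℝ) < N := by exact_mod_cast hN0
  rw [one_div, inv_mul_eq_div, le_div_iff₀ hNpos]
  refine hN.trans ?_
  have hsub : {n : ℕ | 1 ≤ n ∧ n ≤ N ∧ P n} ⊆ {n : ℕ | 1 ≤ n ∧ n ≤ N ∧ Q n} :=
    fun n hn => ⟨hn.1, hn.2.1, hPQ n hn.1 hn.2.2⟩
  exact_mod_cast Set.ncard_le_ncard hsub
    ((Set.finite_Iic N).subset (fun n hn => hn.2.1))

theorem large_conv {r : ℕ} {c : ℝ} (h : RGap.PosLarge r c) :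
    PosProp (fun n => c < ∑ i ∈ Finset.range r, δ (n + i)) := by
  obtain ⟨p, hp, h⟩ := h
  refine posprop_of hp h ?_
  intro n h1 h3
  refine lt_of_lt_of_le h3 ?_
  have hpi := Real.pi_pos
  have hp0 : 0 < SG.ord n := SG.ord_pos h1
  have h4 : ∀ i : ℕ, (SG.ord (n + (i + 1)) - SG.ord (n + i)) / (2 * Real.pi) *
      Real.log (SG.ord n / (2 * Real.pi)) ≤ δ (n + i) := by
    intro i
    show _ ≤ (SG.ord (n + i + 1) - SG.ord (n + i)) / (2 * Real.pi) *
      Real.log (SG.ord (n + i) / (2 * Real.pi))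
    rw [show n + (i + 1) = n + i + 1 by ring]
    apply mul_le_mul_of_nonneg_left
    · apply Real.log_le_log (by positivity)
      apply div_le_div_of_nonneg_right _ (by positivity)
      exact SG.ord_mono h1 (by omega)
    · apply div_nonneg _ (by positivity)
      have := SG.ord_mono (show 1 ≤ n + i by omega) (show n + i ≤ n + i + 1 by omega)
      linarith
  calc (SG.ord (n + r) - SG.ord n) / (2 * Real.pi) * Real.log (SG.ord n / (2 * Real.pi))
      = ∑ i ∈ Finset.range r, (SG.ord (n + (i + 1)) - SG.ord (n + i)) / (2 * Real.pi) *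
        Real.log (SG.ord n / (2 * Real.pi)) := by
        rw [← Finset.sum_mul, ← Finset.sum_div,
          Finset.sum_range_sub (fun i => SG.ord (n + i)) r, add_zero]
    _ ≤ ∑ i ∈ Finset.range r, δ (n + i) := Finset.sum_le_sum fun i _ => h4 i

theorem small_conv {r : ℕ} {c c' : ℝ} (h : RGap.PosSmall r c) (hc : c < c') :
    PosProp (fun n => ∑ i ∈ Finset.range r, δ (n + i) < c') := by
  obtain ⟨p, hp, h⟩ := h.delta hc
  refine posprop_of hp h ?_
  intro n h1 h3
  refine lt_of_le_of_lt ?_ h3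
  have h4 : ∀ i : ℕ, δ (n + i) ≤ SG.ord (n + (i + 1)) * Real.log (SG.ord (n + (i + 1))) /
      (2 * Real.pi) - SG.ord (n + i) * Real.log (SG.ord (n + i)) / (2 * Real.pi) := fun i =>
    RGap.gap_le (n + i) (by omega)
  calc ∑ i ∈ Finset.range r, δ (n + i) ≤ ∑ i ∈ Finset.range r,
      (SG.ord (n + (i + 1)) * Real.log (SG.ord (n + (i + 1))) / (2 * Real.pi) -
        SG.ord (n + i) * Real.log (SG.ord (n + i)) / (2 * Real.pi)) :=
        Finset.sum_le_sum fun i _ => h4 i
    _ = (SG.ord (n + r) * Real.log (SG.ord (n + r)) - SG.ord n * Real.log (SG.ord n)) /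
        (2 * Real.pi) := by
        rw [Finset.sum_range_sub (fun i => SG.ord (n + i) * Real.log (SG.ord (n + i)) /
          (2 * Real.pi)) r, add_zero, sub_div]

/-- Assume the Riemann hypothesis and let `δ_n` be the unfolded gaps between the ordinates of the
zeta zeros. For every `r ≥ 1`, the sum `δ_n + ... + δ_{n+r-1}` (of mean value `r`) is larger than
`r + (9/5) √r` for a positive proportion of the `n`, and it is smaller than `r - √r + 13/25` for a
positive proportion of the `n`. -/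
theorem result (RH : RiemannHypothesis) (r : ℕ) (hr : 1 ≤ r) :
    PosProp (fun n => r + 9 / 5 * Real.sqrt r < ∑ i ∈ Finset.range r, δ (n + i)) ∧
    PosProp (fun n => ∑ i ∈ Finset.range r, δ (n + i) < r - Real.sqrt r + 13 / 25) := by
  have hRHs := RHs_of RH
  refine ⟨large_conv (RGP.large_all hRHs hr), ?_⟩
  rcases (show r = 1 ∨ 2 ≤ r by omega) with h1 | h2
  · subst h1
    obtain ⟨ε, hε, h⟩ := SP.pos_prop_delta hRHs (13 / 25) (by norm_num)
    refine posprop_of hε h ?_
    intro n _ h3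
    rw [Finset.sum_range_one, add_zero, Nat.cast_one, Real.sqrt_one]
    norm_num
    have h4 : δ n = (SG.ord (n + 1) - SG.ord n) / (2 * Real.pi) *
      Real.log (SG.ord n / (2 * Real.pi)) := rfl
    rw [h4]
    exact h3
  · exact small_conv (RGP.small_all hRHs h2).1 (by linarith)

end Pool.Agent.Results.MP_7eacff_nt.UniformRSums
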